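import Pool.Agent.helper5.NBSSesh

/-!
# Linear change of coordinates in the plane; existence of curves with assigned multiplicities
-/

set_option autoImplicit false

open MvPolynomial Pool.Agent.helper5.NBS

namespace Pool.Agent.helper7.KV

/-- the substitution as an algebra map -/
noncomputable def sh0 (c : ℂ) : R2 →ₐ[ℂ] R2 := aeval ![X 0 + C c * X 1, X 1]

lemma sh0_X0 (c : ℂ) : sh0 c (X 0) = X 0 + C c * X 1 := by simp [sh0]

lemma sh0_X1 (c : ℂ) : sh0 c (X 1) = X 1 := by simp [sh0]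

lemma sh0_C (c r : ℂ) : sh0 c (C r) = C r := (sh0 c).commutes r

lemma sh0_sh0 (c d : ℂ) : (sh0 c).comp (sh0 d) = sh0 (c + d) := by
  apply MvPolynomial.algHom_ext
  intro i
  fin_cases i
  · show sh0 c (sh0 d (X 0)) = sh0 (c + d) (X 0)
    rw [sh0_X0, sh0_X0, map_add, map_mul, sh0_X0, sh0_X1, sh0_C, C_add]
    ring
  · show sh0 c (sh0 d (X 1)) = sh0 (c + d) (X 1)
    rw [sh0_X1, sh0_X1, sh0_X1]

lemma sh0_zero : sh0 0 = AlgHom.id ℂ R2 := by
  apply MvPolynomial.algHom_ext
  intro i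
  fin_cases i
  · show sh0 0 (X 0) = X 0
    rw [sh0_X0, C_0, zero_mul, add_zero]
  · show sh0 0 (X 1) = X 1
    rw [sh0_X1]

/-- the linear change of coordinates `x ↦ x + c y`, `y ↦ y` -/
noncomputable def sh (c : ℂ) : R2 ≃ₐ[ℂ] R2 :=
  AlgEquiv.ofAlgHom (sh0 c) (sh0 (-c)) (by rw [sh0_sh0, add_neg_cancel, sh0_zero])
    (by rw [sh0_sh0, neg_add_cancel, sh0_zero])

lemma sh_apply (c : ℂ) (F : R2) : sh c F = sh0 c F := rfl

lemma sh_X0 (c : ℂ) : sh c (X 0) = X 0 + C c * X 1 := sh0_X0 c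

lemma sh_X1 (c : ℂ) : sh c (X 1) = X 1 := sh0_X1 c

lemma sh_C (c r : ℂ) : sh c (C r) = C r := sh0_C c r

lemma sh_neg (c : ℂ) (F : R2) : sh (-c) (sh c F) = F := by
  show sh0 (-c) (sh0 c F) = F
  have h := congrArg (fun f : R2 →ₐ[ℂ] R2 => f F) (sh0_sh0 (-c) c)
  simp only [AlgHom.comp_apply, neg_add_cancel, sh0_zero, AlgHom.id_apply] at h
  exact h

lemma sh_neg' (c : ℂ) (F : R2) : sh c (sh (-c) F) = F := by
  have h := sh_neg (-c) F
  rw [neg_neg] at h
  exact h

lemma wdeg_eq (F : R2) : wdeg 1 F = F.totalDegree := by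
  rw [wdeg, totalDegree]
  apply Finset.sup_congr rfl
  intro n _
  rw [Finsupp.sum_fintype _ _ (fun _ => rfl), Fin.sum_univ_two]
  ring

lemma sh_monomial (c : ℂ) (n : Fin 2 →₀ ℕ) (r : ℂ) :
    sh c (monomial n r) = C r * ((X 0 + C c * X 1) ^ n 0 * X 1 ^ n 1) := by
  rw [sh_apply, sh0, aeval_monomial, Finsupp.prod_fintype _ _ (by intro i; simp),
    Fin.prod_univ_two]
  simp only [Matrix.cons_val_zero, Matrix.cons_val_one]
  rfl

lemma totalDegree_lin (c : ℂ) : (X 0 + C c * X 1 : R2).totalDegree ≤ 1 := by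
  refine (totalDegree_add _ _).trans ?_
  apply max_le
  · rw [totalDegree_X]
  · refine (totalDegree_mul _ _).trans ?_
    rw [totalDegree_C, totalDegree_X]

lemma totalDegree_sh_monomial (c : ℂ) (n : Fin 2 →₀ ℕ) (r : ℂ) :
    (sh c (monomial n r)).totalDegree ≤ n 0 + n 1 := by
  rw [sh_monomial]
  refine (totalDegree_mul _ _).trans ?_
  rw [totalDegree_C, zero_add]
  refine (totalDegree_mul _ _).trans ?_
  apply Nat.add_le_add
  · refine (totalDegree_pow _ _).trans ?_
    calc n 0 * (X 0 + C c * X 1 : R2).totalDegree ≤ n 0 * 1 :=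
          Nat.mul_le_mul_left _ (totalDegree_lin c)
      _ = n 0 := mul_one _
  · refine (totalDegree_pow _ _).trans ?_
    rw [totalDegree_X, mul_one]

lemma wdeg_sh_le (c : ℂ) (F : R2) : wdeg 1 (sh c F) ≤ wdeg 1 F := by
  conv_lhs => rw [F.as_sum]
  rw [map_sum, wdeg_eq, wdeg]
  refine (totalDegree_finsetSum_le ?_)
  intro n hn
  refine (totalDegree_sh_monomial c n _).trans ?_
  have := Finset.le_sup (f := fun n : Fin 2 →₀ ℕ => n 0 + 1 * n 1) hn
  simp only [one_mul] at this ⊢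
  exact this

/-- (1) -/
theorem wdeg_sh (c : ℂ) (F : R2) : wdeg 1 (sh c F) = wdeg 1 F := by
  apply le_antisymm (wdeg_sh_le c F)
  conv_lhs => rw [← sh_neg c F]
  exact wdeg_sh_le (-c) _

/-- the new coordinates of a point -/
def pt (c : ℂ) (p : Fin 2 → ℂ) : Fin 2 → ℂ := ![p 0 - c * p 1, p 1]

lemma pt_neg (c : ℂ) (p : Fin 2 → ℂ) : pt (-c) (pt c p) = p := by
  funext i
  fin_cases i
  · simp [pt]
  · simp [pt]

theorem pt_injective (c : ℂ) : Function.Injective (pt c) := by
  intro p q h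
  rw [← pt_neg c p, h, pt_neg]

lemma sh_ptIdeal (c : ℂ) (p : Fin 2 → ℂ) {m : ℕ} {F : R2} (hF : F ∈ ptIdeal p ^ m) :
    sh c F ∈ ptIdeal (pt c p) ^ m := by
  have h1 : (ptIdeal p).map (sh c : R2 →+* R2) ≤ ptIdeal (pt c p) := by
    rw [ptIdeal, Ideal.map_span, Ideal.span_le]
    rintro _ ⟨_, ⟨i, rfl⟩, rfl⟩
    have e0 : (X 0 - C (pt c p 0) : R2) ∈ ptIdeal (pt c p) := Ideal.subset_span ⟨0, rfl⟩
    have e1 : (X 1 - C (pt c p 1) : R2) ∈ ptIdeal (pt c p) := Ideal.subset_span ⟨1, rfl⟩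
    have f0 : pt c p 0 = p 0 - c * p 1 := rfl
    have f1 : pt c p 1 = p 1 := rfl
    fin_cases i
    · show sh c (X 0 - C (p 0)) ∈ ptIdeal (pt c p)
      have : sh c (X 0 - C (p 0)) = (X 0 - C (pt c p 0)) + C c * (X 1 - C (pt c p 1)) := by
        rw [map_sub, sh_X0, sh_C, f0, f1, C_sub, C_mul]
        ring
      rw [this]
      exact Ideal.add_mem _ e0 (Ideal.mul_mem_left _ _ e1)
    · show sh c (X 1 - C (p 1)) ∈ ptIdeal (pt c p)
      rw [map_sub, sh_X1, sh_C]
      exact e1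
  have h2 : sh c F ∈ ((ptIdeal p) ^ m).map (sh c : R2 →+* R2) := Ideal.mem_map_of_mem _ hF
  rw [Ideal.map_pow] at h2
  exact Ideal.pow_right_mono h1 m h2

/-- (2) -/
theorem sh_mem_iff (c : ℂ) (p : Fin 2 → ℂ) (m : ℕ) (F : R2) :
    sh c F ∈ ptIdeal (pt c p) ^ m ↔ F ∈ ptIdeal p ^ m := by
  constructor
  · intro h
    have := sh_ptIdeal (-c) _ h
    rw [sh_neg, pt_neg] at this
    exact this
  · exact sh_ptIdeal c p

theorem mult_sh (c : ℂ) (p : Fin 2 → ℂ) (F : R2) : mult (pt c p) (sh c F) = mult p F := by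
  rw [mult, mult]
  congr 1
  ext m
  exact sh_mem_iff c p m F

theorem sh_ne_zero (c : ℂ) {F : R2} (hF : F ≠ 0) : sh c F ≠ 0 := by
  intro h
  apply hF
  exact (map_eq_zero_iff _ (sh c).injective).mp h

lemma coeff_lin_pow (c : ℂ) (k l j : ℕ) (h : k + l ≤ j) :
    coeff (Finsupp.single 1 j) ((X 0 + C c * X 1 : R2) ^ k * X 1 ^ l) =
      if k + l = j then c ^ k else 0 := by
  classical
  induction k generalizing j with
  | zero =>
    rw [pow_zero, one_mul, X_pow_eq_monomial, coeff_monomial, pow_zero, zero_add]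
    by_cases h1 : l = j
    · rw [if_pos h1, h1, if_pos rfl]
    · rw [if_neg h1, if_neg]
      intro h2
      exact h1 (Finsupp.single_injective 1 h2)
  | succ k ih =>
    obtain ⟨j, rfl⟩ : ∃ j', j = j' + 1 := ⟨j - 1, by omega⟩
    have e1 : (X 0 + C c * X 1 : R2) ^ (k + 1) * X 1 ^ l =
        ((X 0 + C c * X 1 : R2) ^ k * X 1 ^ l) * X 0 +
        C c * (((X 0 + C c * X 1 : R2) ^ k * X 1 ^ l) * X 1) := by
      rw [pow_succ]
      ring
    rw [e1, coeff_add, coeff_C_mul, coeff_mul_X', coeff_mul_X', if_neg, if_pos, zero_add]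
    · have e2 : Finsupp.single (1 : Fin 2) (j + 1) - Finsupp.single 1 1 = Finsupp.single 1 j := by
        rw [← Finsupp.single_tsub]
        rfl
      rw [e2, ih j (by omega)]
      by_cases h1 : k + l = j
      · rw [if_pos h1, if_pos (by omega), pow_succ]
        ring
      · rw [if_neg h1, if_neg (by omega), mul_zero]
    · rw [Finsupp.mem_support_iff]
      simp
    · rw [Finsupp.mem_support_iff]
      simp

lemma coeff_sh (c : ℂ) (F : R2) (a : ℕ) (hF : wdeg 1 F ≤ a) :
    coeff (Finsupp.single 1 a) (sh c F) =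
      (∑ n ∈ F.support, if n 0 + n 1 = a then Polynomial.monomial (n 0) (coeff n F) else 0 :
        Polynomial ℂ).eval c := by
  conv_lhs => rw [F.as_sum]
  rw [map_sum, coeff_sum, Polynomial.eval_finsetSum]
  apply Finset.sum_congr rfl
  intro n hn
  have h1 : n 0 + n 1 ≤ a := by
    have := Finset.le_sup (f := fun n : Fin 2 →₀ ℕ => n 0 + 1 * n 1) hn
    simp only [one_mul] at this
    rw [wdeg] at hF
    simp only [one_mul] at hF
    omega
  rw [sh_monomial, coeff_C_mul, coeff_lin_pow c _ _ _ h1]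
  split_ifs with h2
  · rw [Polynomial.eval_monomial]
  · rw [mul_zero, Polynomial.eval_zero]

/-- (3) -/
theorem exists_sh {D : R2} (hD : D ≠ 0) : ∃ c : ℂ, ydeg (sh c D) = wdeg 1 (sh c D) := by
  classical
  set a := wdeg 1 D with ha
  set q : Polynomial ℂ := ∑ n ∈ D.support,
    if n 0 + n 1 = a then Polynomial.monomial (n 0) (coeff n D) else 0 with hq
  obtain ⟨n, hn, hna⟩ := Finset.exists_mem_eq_sup D.support (support_nonempty.mpr hD)
    (fun n : Fin 2 →₀ ℕ => n 0 + 1 * n 1)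
  have hna' : n 0 + n 1 = a := by
    rw [ha, wdeg, hna, one_mul]
  have hq0 : q ≠ 0 := by
    intro h0
    have h1 : q.coeff (n 0) = coeff n D := by
      rw [hq, Polynomial.finsetSum_coeff, Finset.sum_eq_single n]
      · rw [if_pos hna', Polynomial.coeff_monomial, if_pos rfl]
      · intro m hm hmn
        split_ifs with h2
        · rw [Polynomial.coeff_monomial, if_neg]
          intro h3
          apply hmn
          ext i
          fin_cases i
          · exact h3
          · show m 1 = n 1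
            omega
        · exact Polynomial.coeff_zero _
      · intro h
        exact absurd hn h
    rw [h0, Polynomial.coeff_zero] at h1
    exact (mem_support_iff.mp hn) h1.symm
  obtain ⟨c, hc⟩ : ∃ c : ℂ, q.eval c ≠ 0 := by
    by_contra hcon
    push Not at hcon
    exact hq0 (Polynomial.funext fun c => by rw [hcon c, Polynomial.eval_zero])
  refine ⟨c, le_antisymm ?_ ?_⟩
  · rw [ydeg, degreeOf_eq_sup, wdeg]
    apply Finset.sup_mono_fun
    intro k _
    omega
  · have h1 := coeff_sh c D a le_rfl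
    rw [← hq] at h1
    have h2 : coeff (Finsupp.single 1 a) (sh c D) ≠ 0 := by
      rw [h1]
      exact hc
    have h3 : a ≤ ydeg (sh c D) := by
      rw [ydeg, degreeOf_eq_sup]
      have := Finset.le_sup (f := fun n : Fin 2 →₀ ℕ => n 1) (mem_support_iff.mpr h2)
      simp only [Finsupp.single_eq_same] at this
      exact this
    rw [wdeg_sh]
    exact h3

end Pool.Agent.helper7.KV
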