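import Pool.Agent.helper7.KV.Coord

/-!
# Existence of curves of given degree with assigned multiplicities
-/

set_option autoImplicit false

open MvPolynomial Pool.Agent.helper5.NBS

namespace Pool.Agent.helper7.KV

lemma two_choose (n : ℕ) : 2 * (((n + 1).choose 2 : ℕ) : ℤ) = n * (n + 1) := by
  have h := Nat.choose_two_right (n + 1)
  have h2 : 2 * (n + 1).choose 2 = (n + 1) * n := by
    rw [h, Nat.add_sub_cancel]
    exact Nat.mul_div_cancel' (Nat.even_mul_pred_self (n + 1)).two_dvd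
  have h3 : ((2 * (n + 1).choose 2 : ℕ) : ℤ) = (((n + 1) * n : ℕ) : ℤ) := by rw [h2]
  push_cast at h3
  linarith

lemma wdeg_X0_pow (k : ℕ) : wdeg 1 (X 0 ^ k : R2) = k := by
  classical
  rw [wdeg_eq, X_pow_eq_monomial, totalDegree_monomial _ one_ne_zero, Finsupp.sum_single_index rfl]

/-- (4) -/
theorem exists_curve {ι : Type} [Fintype ι] (p : ι → Fin 2 → ℂ) (M : ι → ℕ) (a : ℕ)
    (h : ∑ l, (M l + 1).choose 2 < (a + 2).choose 2) :
    ∃ D : R2, D ≠ 0 ∧ wdeg 1 D = a ∧ ∀ l, D ∈ ptIdeal (p l) ^ M l := by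
  classical
  have hfe : ∀ l, Finite {n : Fin 2 →₀ ℕ // n.degree < M l} := fun l => finite_exps (M l)
  have hft : ∀ l, Fintype {n : Fin 2 →₀ ℕ // n.degree < M l} := fun l => Fintype.ofFinite _
  have hV := finite_V 1 a a (by omega)
  let Φ : V 1 a a →ₗ[ℂ] (∀ l, {n : Fin 2 →₀ ℕ // n.degree < M l} → ℂ) :=
    (LinearMap.pi fun l => tay (p l) (M l)) ∘ₗ (V 1 a a).subtype
  have hdim : Module.finrank ℂ (∀ l, {n : Fin 2 →₀ ℕ // n.degree < M l} → ℂ) <
      Module.finrank ℂ (V 1 a a) := by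
    rw [Module.finrank_pi_fintype, finrank_V 1 a a (by omega)]
    have h1 : ∀ l, Module.finrank ℂ ({n : Fin 2 →₀ ℕ // n.degree < M l} → ℂ) =
        (M l + 1).choose 2 := by
      intro l
      rw [Module.finrank_fintype_fun_eq_card, ← Nat.card_eq_fintype_card]
      have h2 := card_exps (M l)
      have h3 := two_choose (M l)
      have h4 : (Nat.card {n : Fin 2 →₀ ℕ // n.degree < M l} : ℤ) = ((M l + 1).choose 2 : ℕ) := by
        linarith
      exact_mod_cast h4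
    simp only [h1]
    have h5 := two_cnt 1 a a (by omega)
    have h6 := two_choose (a + 1)
    have h7 : ((cnt 1 a a : ℕ) : ℤ) = ((a + 2).choose 2 : ℕ) := by
      push_cast at h5 h6 ⊢
      linarith
    have h8 : cnt 1 a a = (a + 2).choose 2 := by exact_mod_cast h7
    rw [h8]
    exact h
  obtain ⟨x, hx0, hx⟩ : ∃ x : V 1 a a, x ≠ 0 ∧ Φ x = 0 := by
    have h1 : LinearMap.ker Φ ≠ ⊥ := LinearMap.ker_ne_bot_of_finrank_lt hdim
    obtain ⟨x, hx, hx0⟩ := Submodule.exists_mem_ne_zero_of_ne_bot h1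
    exact ⟨x, hx0, hx⟩
  have hD0 : (x : R2) ≠ 0 := fun h0 => hx0 (Subtype.ext h0)
  have hDa : wdeg 1 (x : R2) ≤ a := (mem_V.mp x.2).2
  have hDm : ∀ l, (x : R2) ∈ ptIdeal (p l) ^ M l := by
    intro l
    have h1 : tay (p l) (M l) (x : R2) = 0 := congrFun hx l
    have h2 : (x : R2) ∈ LinearMap.ker (tay (p l) (M l)) := h1
    rw [ker_tay] at h2
    exact h2
  have hX : (X 0 ^ (a - wdeg 1 (x : R2)) : R2) ≠ 0 := pow_ne_zero _ (X_ne_zero 0)
  refine ⟨X 0 ^ (a - wdeg 1 (x : R2)) * (x : R2), mul_ne_zero hX hD0, ?_, ?_⟩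
  · rw [wdeg_mul 1 hX hD0, wdeg_X0_pow]
    omega
  · intro l
    exact Ideal.mul_mem_left _ _ (hDm l)

end Pool.Agent.helper7.KV
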