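import Pool.Agent.helper7.KV.DualP
import Pool.Agent.helper5.NBSLocal

/-!
# Duality for a complete intersection of two plane curves, in two variables
-/

set_option autoImplicit false

open Polynomial Pool.Agent.helper5.NBS

namespace Pool.Agent.helper7.KV

/-- from two variables to iterated polynomials -/
noncomputable def psi : R2 →ₐ[ℂ] PP := MvPolynomial.aeval ![X, C X]

lemma psi_X0 : psi (MvPolynomial.X 0) = X := by simp [psi]

lemma psi_X1 : psi (MvPolynomial.X 1) = C X := by simp [psi]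

lemma psi_C (r : ℂ) : psi (MvPolynomial.C r) = C (C r) := by
  rw [psi, MvPolynomial.aeval_C]
  rfl

/-- exponents -/
noncomputable def ee (i j : ℕ) : Fin 2 →₀ ℕ := Finsupp.single 0 i + Finsupp.single 1 j

lemma ee_zero (i j : ℕ) : ee i j 0 = i := by simp [ee]

lemma ee_one (i j : ℕ) : ee i j 1 = j := by simp [ee]

lemma ee_eq (n : Fin 2 →₀ ℕ) : ee (n 0) (n 1) = n := by
  ext k
  fin_cases k
  · exact ee_zero _ _
  · exact ee_one _ _

lemma psi_monomial (n : Fin 2 →₀ ℕ) (c : ℂ) :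
    psi (MvPolynomial.monomial n c) = c • mo (n 0) (n 1) := by
  rw [psi, MvPolynomial.aeval_monomial, Finsupp.prod_fintype _ _ (by intro i; simp),
    Fin.prod_univ_two]
  simp only [Matrix.cons_val_zero, Matrix.cons_val_one]
  rw [mo, Algebra.smul_def, C_pow]
  ring

lemma coeff_psi (f : R2) (i j : ℕ) : ((psi f).coeff i).coeff j = MvPolynomial.coeff (ee i j) f := by
  classical
  conv_lhs => rw [f.as_sum]
  rw [map_sum, finsetSum_coeff, finsetSum_coeff]
  have h1 : ∀ n ∈ f.support, ((psi (MvPolynomial.monomial n (MvPolynomial.coeff n f))).coeff i).coeff j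
      = if n = ee i j then MvPolynomial.coeff n f else 0 := by
    intro n _
    rw [psi_monomial, coeff_smul, coeff_smul, coeff_mo]
    by_cases h : n = ee i j
    · rw [if_pos h, if_pos ⟨by rw [h, ee_zero], by rw [h, ee_one]⟩, smul_eq_mul, mul_one]
    · rw [if_neg h, if_neg, smul_zero]
      rintro ⟨h1, h2⟩
      apply h
      rw [h1, h2, ee_eq]
  rw [Finset.sum_congr rfl h1, Finset.sum_ite_eq']
  split_ifs with h
  · rfl
  · exact (MvPolynomial.notMem_support_iff.mp h).symm

lemma psi_injective : Function.Injective psi := by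
  rw [injective_iff_map_eq_zero]
  intro f hf
  ext n
  rw [← ee_eq n, ← coeff_psi, hf]
  simp

lemma psi_surjective : Function.Surjective psi := by
  intro g
  induction g using Polynomial.induction_on' with
  | add p q hp hq =>
    obtain ⟨f, rfl⟩ := hp
    obtain ⟨g, rfl⟩ := hq
    exact ⟨f + g, map_add _ _ _⟩
  | monomial n c =>
    induction c using Polynomial.induction_on' with
    | add p q hp hq =>
      obtain ⟨f, hf⟩ := hp
      obtain ⟨g, hg⟩ := hq
      exact ⟨f + g, by rw [map_add, hf, hg, ← map_add]⟩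
    | monomial m r =>
      refine ⟨MvPolynomial.C r * MvPolynomial.X 1 ^ m * MvPolynomial.X 0 ^ n, ?_⟩
      rw [map_mul, map_mul, map_pow, map_pow, psi_C, psi_X0, psi_X1, ← C_pow, ← C_mul,
        C_mul_X_pow_eq_monomial, C_mul_X_pow_eq_monomial]

/-- the isomorphism -/
noncomputable def psiE : R2 ≃ₐ[ℂ] PP := AlgEquiv.ofBijective psi ⟨psi_injective, psi_surjective⟩

lemma psiE_apply (f : R2) : psiE f = psi f := rfl

lemma wdeg_le_iff {f : R2} {n : ℕ} :
    wdeg 1 f ≤ n ↔ ∀ k : Fin 2 →₀ ℕ, n < k 0 + k 1 → MvPolynomial.coeff k f = 0 := by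
  rw [wdeg, Finset.sup_le_iff]
  constructor
  · intro h k hk
    by_contra h1
    have := h k (MvPolynomial.mem_support_iff.mpr h1)
    omega
  · intro h k hk
    by_contra h1
    rw [MvPolynomial.mem_support_iff] at hk
    exact hk (h k (by omega))

lemma psi_mem_W {f : R2} {n : ℕ} : psi f ∈ W (n + 1) ↔ wdeg 1 f ≤ n := by
  rw [wdeg_le_iff, mem_W]
  constructor
  · intro h k hk
    rw [← ee_eq k, ← coeff_psi]
    exact h _ _ (by omega)
  · intro h i j hij
    rw [coeff_psi]
    apply h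
    rw [ee_zero, ee_one]
    omega

/-- the union of horizontal lines -/
noncomputable def GG {h : ℕ} (y : Fin h → ℂ) (T : Fin h → ℕ) : R2 :=
  ∏ i, (MvPolynomial.X 1 - MvPolynomial.C (y i)) ^ T i

/-- the same in one variable -/
noncomputable def G1 {h : ℕ} (y : Fin h → ℂ) (T : Fin h → ℕ) : Polynomial ℂ :=
  ∏ i, (X - C (y i)) ^ T i

lemma psi_GG {h : ℕ} (y : Fin h → ℂ) (T : Fin h → ℕ) : psi (GG y T) = C (G1 y T) := by
  rw [GG, G1, map_prod, map_prod]
  apply Finset.prod_congr rfl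
  intro i _
  rw [map_pow, map_sub, psi_X1, psi_C, C_pow, C_sub]

lemma G1_monic {h : ℕ} (y : Fin h → ℂ) (T : Fin h → ℕ) : (G1 y T).Monic :=
  monic_prod_of_monic _ _ fun i _ => (monic_X_sub_C (y i)).pow _

lemma G1_natDegree {h : ℕ} (y : Fin h → ℂ) (T : Fin h → ℕ) : (G1 y T).natDegree = ∑ i, T i := by
  rw [G1, natDegree_prod_of_monic _ _ fun i _ => (monic_X_sub_C (y i)).pow _]
  apply Finset.sum_congr rfl
  intro i _
  rw [(monic_X_sub_C (y i)).natDegree_pow, natDegree_X_sub_C, mul_one]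

lemma psi_monic {D : R2} {a : ℕ} (hD : wdeg 1 D ≤ a)
    (hD1 : MvPolynomial.coeff (Finsupp.single 0 a) D = 1) :
    (psi D).Monic ∧ (psi D).natDegree = a := by
  have h1 : (psi D).coeff a = 1 := by
    ext j
    rw [coeff_psi, coeff_one]
    split_ifs with h
    · rw [h]
      have : ee a 0 = Finsupp.single 0 a := by simp [ee]
      rw [this, hD1]
    · apply wdeg_le_iff.mp hD
      rw [ee_zero, ee_one]
      omega
  have h2 : (psi D).natDegree ≤ a := by
    rw [natDegree_le_iff_coeff_eq_zero]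
    intro i hi
    ext j
    rw [coeff_psi, coeff_zero]
    apply wdeg_le_iff.mp hD
    rw [ee_zero, ee_one]
    omega
  have h3 : (psi D).natDegree = a := by
    apply le_antisymm h2
    apply le_natDegree_of_ne_zero
    rw [h1]
    exact one_ne_zero
  refine ⟨?_, h3⟩
  rw [Monic, leadingCoeff, h3, h1]

lemma map_span_pair (D G : R2) :
    (Ideal.span {D, G}).map (psiE : R2 ≃+* PP) = Ideal.span {psi D, psi G} := by
  rw [Ideal.map_span, Set.image_pair]
  rfl

lemma mem_span_iff {D G f : R2} : psi f ∈ Ideal.span {psi D, psi G} ↔ f ∈ Ideal.span {D, G} := by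
  rw [Ideal.mem_span_pair, Ideal.mem_span_pair]
  constructor
  · rintro ⟨u, v, h⟩
    obtain ⟨u, rfl⟩ := psi_surjective u
    obtain ⟨v, rfl⟩ := psi_surjective v
    refine ⟨u, v, psi_injective ?_⟩
    rw [map_add, map_mul, map_mul, h]
  · rintro ⟨u, v, h⟩
    refine ⟨psi u, psi v, ?_⟩
    rw [← h, map_add, map_mul, map_mul]

/-- Duality. -/
theorem dualR {h : ℕ} (y : Fin h → ℂ) (T : Fin h → ℕ) {D : R2} {d : ℕ} (hD : wdeg 1 D ≤ d + 3)
    (hD1 : MvPolynomial.coeff (Finsupp.single 0 (d + 3)) D = 1) (l : R2 →ₗ[ℂ] ℂ) (hl0 : l ≠ 0)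
    (I : Ideal R2) (hDI : D ∈ I) (hGI : GG y T ∈ I) (hlI : ∀ f ∈ I, l f = 0)
    (hlW : ∀ f, wdeg 1 f ≤ d → l f = 0) :
    ∃ F : R2, wdeg 1 F ≤ ∑ i, T i ∧ F ∉ Ideal.span {D, GG y T} ∧
      ∀ f ∈ I, F * f ∈ Ideal.span {D, GG y T} := by
  obtain ⟨m1, m2⟩ := psi_monic hD hD1
  have hmem : ∀ g, g ∈ I.map (psiE : R2 ≃+* PP) ↔ psiE.symm g ∈ I := by
    intro g
    rw [Ideal.mem_map_of_equiv]
    constructor
    · rintro ⟨x, hx, hxg⟩
      rw [← hxg]
      show psiE.symm (psiE x) ∈ I
      rw [AlgEquiv.symm_apply_apply]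
      exact hx
    · intro hx
      exact ⟨_, hx, psiE.apply_symm_apply g⟩
  have hs : ∀ f : R2, psiE.symm (psi f) = f := fun f => psiE.symm_apply_apply f
  obtain ⟨F, hF1, hF2, hF3⟩ := dualP (D := psi D) (G := G1 y T) m1 (G1_monic y T)
    (by rw [m2]; exact psi_mem_W.mpr hD) (d := d) m2 (l ∘ₗ psiE.symm.toLinearMap)
    (by
      intro h0
      apply hl0
      apply LinearMap.ext
      intro f
      have := LinearMap.congr_fun h0 (psi f)
      change l (psiE.symm (psi f)) = 0 at this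
      rw [hs] at this
      exact this)
    (I.map (psiE : R2 ≃+* PP)) (by rw [hmem, hs]; exact hDI)
    (by rw [← psi_GG, hmem, hs]; exact hGI)
    (by
      intro g hg
      rw [hmem] at hg
      exact hlI _ hg)
    (by
      intro g hg
      obtain ⟨f, rfl⟩ := psi_surjective g
      show l (psiE.symm (psi f)) = 0
      rw [hs]
      exact hlW f (psi_mem_W.mp hg))
  obtain ⟨F, rfl⟩ := psi_surjective F
  rw [G1_natDegree] at hF1
  refine ⟨F, psi_mem_W.mp hF1, ?_, ?_⟩
  · rw [← psi_GG, mem_span_iff] at hF2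
    exact hF2
  · intro f hf
    have h1 := hF3 (psi f) (by rw [hmem, hs]; exact hf)
    rw [← psi_GG, ← map_mul, mem_span_iff] at h1
    exact h1

/-- The dimension of a complete intersection. -/
theorem finrank_DG {h : ℕ} (y : Fin h → ℂ) (T : Fin h → ℕ) {D : R2} {a : ℕ} (hD : wdeg 1 D ≤ a)
    (hD1 : MvPolynomial.coeff (Finsupp.single 0 a) D = 1) :
    Module.Finite ℂ (R2 ⧸ Ideal.span {D, GG y T}) ∧
    Module.finrank ℂ (R2 ⧸ Ideal.span {D, GG y T}) = a * ∑ i, T i := by
  obtain ⟨m1, m2⟩ := psi_monic hD hD1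
  have hG := G1_monic y T
  let φ : R2 →ₗ[ℂ] (Fin (psi D).natDegree → Fin (G1 y T).natDegree → ℂ) :=
    (red (psi D) (G1 y T) (psi D).natDegree (G1 y T).natDegree) ∘ₗ psi.toLinearMap
  have hφs : Function.Surjective φ := by
    intro c
    obtain ⟨f, hf⟩ := psi_surjective (lif (psi D).natDegree (G1 y T).natDegree c)
    refine ⟨f, ?_⟩
    show red (psi D) (G1 y T) _ _ (psi f) = c
    rw [hf, red_lif m1 hG]
  have hφk : LinearMap.ker φ = (Ideal.span {D, GG y T}).restrictScalars ℂ := by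
    ext f
    rw [LinearMap.mem_ker, Submodule.restrictScalars_mem, ← mem_span_iff, psi_GG]
    show red (psi D) (G1 y T) _ _ (psi f) = 0 ↔ _
    constructor
    · intro h0
      have h1 := sub_lif_red m1 hG (psi f)
      rw [h0] at h1
      have h4 : lif (psi D).natDegree (G1 y T).natDegree 0 = 0 :=
        (lifL (psi D).natDegree (G1 y T).natDegree).map_zero
      rw [h4, sub_zero] at h1
      exact h1
    · intro h0
      exact red_ideal m1 hG _ _ h0
  let e : (R2 ⧸ Ideal.span {D, GG y T}) ≃ₗ[ℂ]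
      (Fin (psi D).natDegree → Fin (G1 y T).natDegree → ℂ) :=
    (Submodule.Quotient.restrictScalarsEquiv ℂ (Ideal.span {D, GG y T})).symm ≪≫ₗ
      (Submodule.quotEquivOfEq _ _ hφk.symm) ≪≫ₗ φ.quotKerEquivOfSurjective hφs
  refine ⟨Module.Finite.equiv e.symm, ?_⟩
  rw [e.finrank_eq, Module.finrank_pi_fintype]
  simp only [Module.finrank_fintype_fun_eq_card, Fintype.card_fin, Finset.sum_const,
    Finset.card_univ, smul_eq_mul]
  rw [m2, G1_natDegree]

end Pool.Agent.helper7.KV
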