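import Mathlib

/-!
# Duality for a complete intersection of two plane curves, one of them a union of lines

`P = ℂ[y][x]`, `D` is monic of degree `a` in `x` and of total degree `a`, and `G = G(y)` is monic of
degree `b`. A linear functional on `P ⧸ (D, G)` which vanishes on polynomials of degree less than
`d + 1`, where `a = d + 3`, is given by a polynomial of total degree at most `b`.
-/

set_option autoImplicit false

open Polynomial

namespace Pool.Agent.helper7.KV

/-- polynomials in two variables: `x` is the outer variable, `y` the inner one -/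
abbrev PP := Polynomial (Polynomial ℂ)

/-- total degree less than `n` -/
def W (n : ℕ) : Submodule ℂ PP where
  carrier := {f | ∀ i j, n ≤ i + j → (f.coeff i).coeff j = 0}
  add_mem' := by
    intro f g hf hg i j h
    rw [coeff_add, coeff_add, hf i j h, hg i j h, add_zero]
  zero_mem' := by
    intro i j _
    simp
  smul_mem' := by
    intro c f hf i j h
    rw [coeff_smul, coeff_smul, hf i j h, smul_zero]

lemma mem_W {n : ℕ} {f : PP} : f ∈ W n ↔ ∀ i j, n ≤ i + j → (f.coeff i).coeff j = 0 := Iff.rfl

lemma W_mono {m n : ℕ} (h : m ≤ n) : W m ≤ W n := fun _ hf i j hij => hf i j (h.trans hij)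

lemma W_mul {m n : ℕ} {f g : PP} (hf : f ∈ W m) (hg : g ∈ W (n + 1)) : f * g ∈ W (m + n) := by
  intro i j hij
  rw [coeff_mul, finsetSum_coeff]
  apply Finset.sum_eq_zero
  rintro ⟨i1, i2⟩ hi
  have hi : i1 + i2 = i := Finset.HasAntidiagonal.mem_antidiagonal.mp hi
  show (coeff f i1 * coeff g i2).coeff j = 0
  rw [coeff_mul]
  apply Finset.sum_eq_zero
  rintro ⟨j1, j2⟩ hj
  have hj : j1 + j2 = j := Finset.HasAntidiagonal.mem_antidiagonal.mp hj
  show (coeff f i1).coeff j1 * (coeff g i2).coeff j2 = 0
  by_cases h1 : m ≤ i1 + j1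
  · rw [hf i1 j1 h1, zero_mul]
  · rw [hg i2 j2 (by omega), mul_zero]

lemma C_mem_W {n : ℕ} {c : Polynomial ℂ} (hc : ∀ j, n ≤ j → c.coeff j = 0) : (C c : PP) ∈ W n := by
  intro i j hij
  rw [coeff_C]
  split_ifs with h
  · exact hc j (by omega)
  · simp

lemma mon_mem_W {k n : ℕ} {c : Polynomial ℂ} (hc : ∀ j, n ≤ k + j → c.coeff j = 0) :
    (C c * X ^ k : PP) ∈ W n := by
  intro i j hij
  rw [coeff_C_mul_X_pow]
  split_ifs with h
  · exact hc j (by omega)
  · simp

/-- reduction modulo `D` does not increase the degree -/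
lemma mod_mem_W {D : PP} (hD : D.Monic) {n : ℕ} (hDW : D ∈ W (D.natDegree + 1)) {f : PP}
    (hf : f ∈ W n) : f %ₘ D ∈ W n := by
  have main : ∀ (k : ℕ) (f : PP), f.natDegree < k → f ∈ W n → f %ₘ D ∈ W n := by
    intro k
    induction k with
    | zero => intro f h; omega
    | succ k ih =>
      intro f hk hf
      by_cases hdeg : f.degree < D.degree
      · rw [(modByMonic_eq_self_iff hD).mpr hdeg]
        exact hf
      · have hf0 : f ≠ 0 := by
          rintro rfl
          rw [degree_zero] at hdeg
          apply hdeg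
          rw [degree_eq_natDegree hD.ne_zero]
          exact WithBot.bot_lt_coe _
        have hle : D.natDegree ≤ f.natDegree := by
          rw [not_lt, degree_eq_natDegree hD.ne_zero, degree_eq_natDegree hf0] at hdeg
          exact_mod_cast hdeg
        set g : PP := f - D * (C f.leadingCoeff * X ^ (f.natDegree - D.natDegree)) with hg
        have hmod : f %ₘ D = g %ₘ D := by
          have h1 : D ∣ f - g := by
            rw [hg, sub_sub_cancel]
            exact Dvd.intro _ rfl
          have h2 : (f - g) %ₘ D = 0 := (modByMonic_eq_zero_iff_dvd hD).mpr h1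
          rw [sub_modByMonic] at h2
          exact sub_eq_zero.mp h2
        have hgW : g ∈ W n := by
          refine Submodule.sub_mem _ hf ?_
          by_cases hn : f.natDegree < n
          · have h1 : (C f.leadingCoeff * X ^ (f.natDegree - D.natDegree) : PP) ∈
                W (n - D.natDegree) := by
              apply mon_mem_W
              intro j hj
              exact hf f.natDegree j (by omega)
            have h2 := W_mul h1 hDW
            rw [mul_comm] at h2
            exact W_mono (by omega) h2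
          · exfalso
            apply hf0
            rw [← leadingCoeff_eq_zero]
            ext j
            rw [coeff_zero]
            exact hf f.natDegree j (by omega)
        rw [hmod]
        by_cases hg0 : g = 0
        · rw [hg0, zero_modByMonic]
          exact zero_mem _
        · apply ih g _ hgW
          have h3 : g.degree < f.degree := by
            apply degree_sub_lt_left _ hf0
            · rw [leadingCoeff_mul, hD.leadingCoeff, one_mul, leadingCoeff_mul,
                leadingCoeff_C, leadingCoeff_X_pow, mul_one]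
            · rw [degree_mul, degree_mul, degree_C (leadingCoeff_ne_zero.mpr hf0), degree_X_pow,
                degree_eq_natDegree hD.ne_zero, degree_eq_natDegree hf0, zero_add]
              norm_cast
              omega
          have h4 := natDegree_lt_natDegree hg0 h3
          omega
  exact main (f.natDegree + 1) f (by omega) hf

lemma modC_coeff {G : Polynomial ℂ} (hG : G.Monic) {c : Polynomial ℂ} {n : ℕ}
    (hc : ∀ j, n ≤ j → c.coeff j = 0) : ∀ j, n ≤ j → (c %ₘ G).coeff j = 0 := by
  intro j hj
  by_cases hjb : G.natDegree ≤ j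
  · apply coeff_eq_zero_of_degree_lt
    refine lt_of_lt_of_le (degree_modByMonic_lt c hG) ?_
    rw [degree_eq_natDegree hG.ne_zero]
    exact_mod_cast hjb
  · have h1 : c.degree < G.degree := by
      rw [degree_eq_natDegree hG.ne_zero, degree_lt_iff_coeff_zero]
      intro m hm
      exact hc m (by omega)
    rw [(modByMonic_eq_self_iff hG).mpr h1]
    exact hc j hj

variable (D : PP) (G : Polynomial ℂ)

/-- coordinates of the remainder modulo `D` and `G` -/
noncomputable def red (a b : ℕ) : PP →ₗ[ℂ] (Fin a → Fin b → ℂ) :=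
  LinearMap.pi fun i => LinearMap.pi fun j =>
    (lcoeff ℂ j.1) ∘ₗ (modByMonicHom G) ∘ₗ ((lcoeff (Polynomial ℂ) i.1).restrictScalars ℂ) ∘ₗ
      ((modByMonicHom D).restrictScalars ℂ)

lemma red_apply (a b : ℕ) (f : PP) (i : Fin a) (j : Fin b) :
    red D G a b f i j = (((f %ₘ D).coeff i.1) %ₘ G).coeff j.1 := rfl

/-- the polynomial with given coordinates -/
noncomputable def lif (a b : ℕ) (c : Fin a → Fin b → ℂ) : PP :=
  ∑ i : Fin a, C (∑ j : Fin b, C (c i j) * X ^ j.1) * X ^ i.1

lemma coeff_lif (a b : ℕ) (c : Fin a → Fin b → ℂ) (i j : ℕ) :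
    ((lif a b c).coeff i).coeff j = if h : i < a ∧ j < b then c ⟨i, h.1⟩ ⟨j, h.2⟩ else 0 := by
  rw [lif, finsetSum_coeff]
  simp only [coeff_C_mul_X_pow]
  split_ifs with h
  · rw [Finset.sum_eq_single ⟨i, h.1⟩]
    · rw [if_pos rfl, finsetSum_coeff]
      simp only [coeff_C_mul_X_pow]
      rw [Finset.sum_eq_single ⟨j, h.2⟩]
      · rw [if_pos rfl]
      · intro k _ hk
        rw [if_neg]
        intro h1
        exact hk (Fin.ext h1.symm)
      · intro h1
        exact absurd (Finset.mem_univ _) h1
    · intro k _ hk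
      rw [if_neg]
      intro h1
      exact hk (Fin.ext h1.symm)
    · intro h1
      exact absurd (Finset.mem_univ _) h1
  · rw [finsetSum_coeff]
    apply Finset.sum_eq_zero
    intro k _
    split_ifs with h1
    · rw [finsetSum_coeff]
      apply Finset.sum_eq_zero
      intro l _
      rw [coeff_C_mul_X_pow, if_neg]
      intro h2
      exact h ⟨h1 ▸ k.2, h2 ▸ l.2⟩
    · exact coeff_zero _

variable {D G}

lemma red_lif (hD : D.Monic) (hG : G.Monic) (c : Fin D.natDegree → Fin G.natDegree → ℂ) :
    red D G D.natDegree G.natDegree (lif D.natDegree G.natDegree c) = c := by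
  have h1 : (lif D.natDegree G.natDegree c) %ₘ D = lif D.natDegree G.natDegree c := by
    rw [modByMonic_eq_self_iff hD, degree_eq_natDegree hD.ne_zero, degree_lt_iff_coeff_zero]
    intro m hm
    ext j
    rw [coeff_lif, dif_neg (by omega), coeff_zero]
  funext i j
  rw [red_apply, h1]
  have h2 : ((lif D.natDegree G.natDegree c).coeff i.1) %ₘ G = (lif D.natDegree G.natDegree c).coeff i.1 := by
    rw [modByMonic_eq_self_iff hG, degree_eq_natDegree hG.ne_zero, degree_lt_iff_coeff_zero]
    intro m hm
    rw [coeff_lif, dif_neg (by omega)]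
  rw [h2, coeff_lif, dif_pos ⟨i.2, j.2⟩]

lemma red_W (hD : D.Monic) (hG : G.Monic) (hDW : D ∈ W (D.natDegree + 1)) {n : ℕ} {f : PP}
    (hf : f ∈ W n) {a b : ℕ} (i : Fin a) (j : Fin b) (h : n ≤ i.1 + j.1) :
    red D G a b f i j = 0 := by
  rw [red_apply]
  have h1 := mod_mem_W hD hDW hf
  exact modC_coeff hG (n := n - i.1) (fun k hk => h1 i.1 k (by omega)) j.1 (by omega)

lemma red_D (hD : D.Monic) (a b : ℕ) (f : PP) : red D G a b (f * D) = 0 := by
  funext i j
  rw [red_apply, (modByMonic_eq_zero_iff_dvd hD).mpr (Dvd.intro_left _ rfl)]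
  simp

lemma red_G (hG : G.Monic) (a b : ℕ) (f : PP) : red D G a b (f * C G) = 0 := by
  funext i j
  have h1 : (f * C G) %ₘ D = G • (f %ₘ D) := by
    rw [mul_comm, ← smul_eq_C_mul, smul_modByMonic]
  rw [red_apply, h1, coeff_smul, smul_eq_mul,
    (modByMonic_eq_zero_iff_dvd hG).mpr (Dvd.intro _ rfl)]
  simp

lemma red_ideal (hD : D.Monic) (hG : G.Monic) (a b : ℕ) {f : PP}
    (hf : f ∈ Ideal.span {D, C G}) : red D G a b f = 0 := by
  rw [Ideal.mem_span_pair] at hf
  obtain ⟨u, v, rfl⟩ := hf
  rw [map_add, red_D hD, red_G hG, add_zero]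

lemma sub_lif_red (hD : D.Monic) (hG : G.Monic) (f : PP) :
    f - lif D.natDegree G.natDegree (red D G D.natDegree G.natDegree f) ∈ Ideal.span {D, C G} := by
  have h1 : f - f %ₘ D ∈ Ideal.span {D, C G} := by
    have : f - f %ₘ D = (f /ₘ D) * D := by
      rw [sub_eq_iff_eq_add, mul_comm, add_comm]
      exact (modByMonic_add_div f D).symm
    rw [this]
    exact Ideal.mul_mem_left _ _ (Ideal.subset_span (by simp))
  have h2 : f %ₘ D - lif D.natDegree G.natDegree (red D G D.natDegree G.natDegree f) =
      (∑ i : Fin D.natDegree, C (((f %ₘ D).coeff i.1) /ₘ G) * X ^ i.1) * C G := by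
    ext i j
    rw [coeff_sub, coeff_sub, coeff_lif, coeff_mul_C, finsetSum_coeff]
    simp only [coeff_C_mul_X_pow]
    by_cases hi : i < D.natDegree
    · rw [Finset.sum_eq_single ⟨i, hi⟩]
      · rw [if_pos rfl]
        have h3 := congrArg (fun g : Polynomial ℂ => g.coeff j)
          (modByMonic_add_div ((f %ₘ D).coeff i) G)
        simp only [coeff_add] at h3
        rw [← h3, mul_comm]
        by_cases hj : j < G.natDegree
        · rw [dif_pos ⟨hi, hj⟩, red_apply]
          ring
        · rw [dif_neg (by omega)]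
          have h4 : (((f %ₘ D).coeff i) %ₘ G).coeff j = 0 := by
            apply coeff_eq_zero_of_degree_lt
            refine lt_of_lt_of_le (degree_modByMonic_lt _ hG) ?_
            rw [degree_eq_natDegree hG.ne_zero]
            exact_mod_cast (not_lt.mp hj)
          rw [h4]
          ring
      · intro k _ hk
        rw [if_neg]
        intro h1
        exact hk (Fin.ext h1.symm)
      · intro h1
        exact absurd (Finset.mem_univ _) h1
    · rw [dif_neg (by omega)]
      have h4 : (f %ₘ D).coeff i = 0 := by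
        apply coeff_eq_zero_of_degree_lt
        refine lt_of_lt_of_le (degree_modByMonic_lt _ hD) ?_
        rw [degree_eq_natDegree hD.ne_zero]
        exact_mod_cast (not_lt.mp hi)
      rw [h4]
      have h5 : (∑ k : Fin D.natDegree, if i = k.1 then ((f %ₘ D).coeff k.1) /ₘ G else 0) = 0 := by
        apply Finset.sum_eq_zero
        intro k _
        rw [if_neg]
        intro h6
        exact hi (h6 ▸ k.2)
      rw [h5]
      simp
  have h3 : f - lif D.natDegree G.natDegree (red D G D.natDegree G.natDegree f) =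
      (f - f %ₘ D) + (f %ₘ D - lif D.natDegree G.natDegree (red D G D.natDegree G.natDegree f)) := by
    ring
  rw [h3, h2]
  exact Ideal.add_mem _ h1 (Ideal.mul_mem_left _ _ (Ideal.subset_span (by simp)))

/-- the monomial `x^k y^l` -/
noncomputable def mo (k l : ℕ) : PP := C (X ^ l) * X ^ k

lemma coeff_mo (k l i j : ℕ) : ((mo k l).coeff i).coeff j = if i = k ∧ j = l then 1 else 0 := by
  rw [mo, coeff_C_mul_X_pow]
  by_cases h1 : i = k
  · rw [if_pos h1, coeff_X_pow]
    by_cases h2 : j = l
    · rw [if_pos h2, if_pos ⟨h1, h2⟩]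
    · rw [if_neg h2, if_neg (fun h => h2 h.2)]
  · rw [if_neg h1, coeff_zero, if_neg (fun h => h1 h.1)]

lemma mo_mul (k l k' l' : ℕ) : mo k l * mo k' l' = mo (k + k') (l + l') := by
  rw [mo, mo, mo, pow_add, pow_add, C_mul]
  ring

lemma mo_mem_W {k l n : ℕ} (h : k + l < n) : mo k l ∈ W n := by
  intro i j hij
  rw [coeff_mo, if_neg]
  omega

lemma CC_mul (r : ℂ) (f : PP) : C (C r) * f = r • f := by
  ext i j
  rw [coeff_C_mul, coeff_C_mul, coeff_smul, coeff_smul, smul_eq_mul]

lemma lif_eq (a b : ℕ) (c : Fin a → Fin b → ℂ) :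
    lif a b c = ∑ i : Fin a, ∑ j : Fin b, c i j • mo i.1 j.1 := by
  rw [lif]
  apply Finset.sum_congr rfl
  intro i _
  rw [map_sum, Finset.sum_mul]
  apply Finset.sum_congr rfl
  intro j _
  rw [mo, C_mul, mul_assoc]
  rw [CC_mul]

lemma red_mo_top (hD : D.Monic) (hG : G.Monic) (ha : 1 ≤ D.natDegree) (hb : 1 ≤ G.natDegree) :
    red D G D.natDegree G.natDegree (mo (D.natDegree - 1) (G.natDegree - 1))
      ⟨D.natDegree - 1, by omega⟩ ⟨G.natDegree - 1, by omega⟩ = 1 := by
  set c : Fin D.natDegree → Fin G.natDegree → ℂ :=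
    fun i j => if i.1 = D.natDegree - 1 ∧ j.1 = G.natDegree - 1 then 1 else 0 with hc
  have h1 : mo (D.natDegree - 1) (G.natDegree - 1) = lif D.natDegree G.natDegree c := by
    ext i j
    rw [coeff_mo, coeff_lif]
    by_cases h : i < D.natDegree ∧ j < G.natDegree
    · rw [dif_pos h]
    · rw [dif_neg h, if_neg]
      omega
  rw [h1, red_lif hD hG, hc]
  simp

lemma red_mo_zero (hD : D.Monic) (hG : G.Monic) (hDW : D ∈ W (D.natDegree + 1))
    (ha : 1 ≤ D.natDegree) (hb : 1 ≤ G.natDegree) {k l : ℕ} (hl : G.natDegree ≤ l)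
    (hkl : k + l ≤ D.natDegree - 1 + (G.natDegree - 1)) :
    red D G D.natDegree G.natDegree (mo k l)
      ⟨D.natDegree - 1, by omega⟩ ⟨G.natDegree - 1, by omega⟩ = 0 := by
  have h1 : mo k l = mo k (l - G.natDegree) * C G -
      mo k (l - G.natDegree) * C (G - X ^ G.natDegree) := by
    have h2 : mo k l = mo k (l - G.natDegree) * C (X ^ G.natDegree) := by
      rw [mo, mo]
      conv_lhs => rw [← Nat.sub_add_cancel hl, pow_add, C_mul]
      ring
    rw [← mul_sub, ← C_sub, sub_sub_cancel, ← h2]
  rw [h1, map_sub, red_G hG, zero_sub]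
  show - red D G D.natDegree G.natDegree (mo k (l - G.natDegree) * C (G - X ^ G.natDegree)) _ _ = 0
  rw [neg_eq_zero]
  have h3 : (C (G - X ^ G.natDegree) : PP) ∈ W (G.natDegree - 1 + 1) := by
    apply C_mem_W
    intro j hj
    rw [coeff_sub, coeff_X_pow]
    by_cases h4 : j = G.natDegree
    · rw [if_pos h4, h4, coeff_natDegree, hG.leadingCoeff, sub_self]
    · rw [if_neg h4, sub_zero]
      apply coeff_eq_zero_of_natDegree_lt
      omega
  have h4 : mo k (l - G.natDegree) ∈ W (k + (l - G.natDegree) + 1) := mo_mem_W (by omega)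
  apply red_W hD hG hDW (W_mul h4 h3)
  show k + (l - G.natDegree) + 1 + (G.natDegree - 1) ≤ D.natDegree - 1 + (G.natDegree - 1)
  omega

/-- the functional of the duality -/
noncomputable def tau (D : PP) (G : Polynomial ℂ) (f : PP) : ℂ :=
  if h : 1 ≤ D.natDegree ∧ 1 ≤ G.natDegree then
    red D G D.natDegree G.natDegree f ⟨D.natDegree - 1, by omega⟩ ⟨G.natDegree - 1, by omega⟩
  else 0

lemma tau_add (f g : PP) : tau D G (f + g) = tau D G f + tau D G g := by
  unfold tau
  split_ifs with h
  · rw [map_add]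
    rfl
  · simp

lemma tau_smul (r : ℂ) (f : PP) : tau D G (r • f) = r * tau D G f := by
  unfold tau
  split_ifs with h
  · rw [map_smul]
    rfl
  · simp

lemma tau_zero : tau D G 0 = 0 := by
  unfold tau
  split_ifs with h
  · rw [map_zero]
    rfl
  · rfl

lemma tau_sum {ι : Type} (s : Finset ι) (f : ι → PP) :
    tau D G (∑ i ∈ s, f i) = ∑ i ∈ s, tau D G (f i) := by
  classical
  induction s using Finset.induction_on with
  | empty => rw [Finset.sum_empty, Finset.sum_empty, tau_zero]
  | insert a s ha ih => rw [Finset.sum_insert ha, Finset.sum_insert ha, tau_add, ih]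

/-- triangularity of the pairing -/
lemma tau_tri (hD : D.Monic) (hG : G.Monic) (hDW : D ∈ W (D.natDegree + 1))
    (ha : 1 ≤ D.natDegree) (hb : 1 ≤ G.natDegree) (c : Fin D.natDegree → Fin G.natDegree → ℂ)
    (i0 : Fin D.natDegree) (j0 : Fin G.natDegree)
    (h1 : ∀ i j, i0.1 + j0.1 < i.1 + j.1 → c i j = 0)
    (h2 : ∀ i j, i0.1 + j0.1 = i.1 + j.1 → j.1 < j0.1 → c i j = 0) :
    tau D G (lif D.natDegree G.natDegree c *
      mo (D.natDegree - 1 - i0.1) (G.natDegree - 1 - j0.1)) = c i0 j0 := by
  have hi0 := i0.2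
  have hj0 := j0.2
  have hval : ∀ (i : Fin D.natDegree) (j : Fin G.natDegree),
      tau D G ((c i j • mo i.1 j.1) * mo (D.natDegree - 1 - i0.1) (G.natDegree - 1 - j0.1)) =
      if i = i0 ∧ j = j0 then c i0 j0 else 0 := by
    intro i j
    have hi := i.2
    have hj := j.2
    rw [smul_mul_assoc, tau_smul, mo_mul]
    by_cases hcij : c i j = 0
    · rw [hcij, zero_mul]
      split_ifs with h3
      · rw [← hcij, h3.1, h3.2]
      · rfl
    · have h4 : i.1 + j.1 ≤ i0.1 + j0.1 := by
        by_contra h5
        exact hcij (h1 i j (by omega))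
      have h5 : i0.1 + j0.1 = i.1 + j.1 → j0.1 ≤ j.1 := by
        intro h6
        by_contra h7
        exact hcij (h2 i j h6 (by omega))
      by_cases h6 : i = i0 ∧ j = j0
      · rw [if_pos h6, h6.1, h6.2]
        have e1 : i0.1 + (D.natDegree - 1 - i0.1) = D.natDegree - 1 := by omega
        have e2 : j0.1 + (G.natDegree - 1 - j0.1) = G.natDegree - 1 := by omega
        rw [e1, e2, tau, dif_pos ⟨ha, hb⟩, red_mo_top hD hG ha hb, mul_one]
      · rw [if_neg h6, tau, dif_pos ⟨ha, hb⟩]
        by_cases h7 : i0.1 + j0.1 = i.1 + j.1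
        · have h8 : j0.1 < j.1 := by
            rcases lt_or_eq_of_le (h5 h7) with h9 | h9
            · exact h9
            · exfalso
              apply h6
              exact ⟨Fin.ext (by omega), Fin.ext h9.symm⟩
          rw [red_mo_zero hD hG hDW ha hb (by omega) (by omega), mul_zero]
        · rw [red_W hD hG hDW (mo_mem_W (n := D.natDegree - 1 + (G.natDegree - 1)) (by omega)) _ _
            (le_refl _), mul_zero]
  rw [lif_eq, Finset.sum_mul, tau_sum]
  simp only [Finset.sum_mul, tau_sum, hval]
  rw [Finset.sum_eq_single i0]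
  · rw [Finset.sum_eq_single j0]
    · simp
    · intro j _ hj
      rw [if_neg (fun h => hj h.2)]
    · intro h
      exact absurd (Finset.mem_univ _) h
  · intro i _ hi
    apply Finset.sum_eq_zero
    intro j _
    rw [if_neg (fun h => hi h.1)]
  · intro h
    exact absurd (Finset.mem_univ _) h

/-- the position of the leading coordinate -/
lemma exists_top (a b : ℕ) (c : Fin a → Fin b → ℂ) (hc : c ≠ 0) :
    ∃ (i0 : Fin a) (j0 : Fin b), c i0 j0 ≠ 0 ∧ (∀ i j, i0.1 + j0.1 < i.1 + j.1 → c i j = 0) ∧
      (∀ i j, i0.1 + j0.1 = i.1 + j.1 → j.1 < j0.1 → c i j = 0) := by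
  classical
  set s : Finset (Fin a × Fin b) := Finset.univ.filter fun x => c x.1 x.2 ≠ 0 with hs
  have hne : s.Nonempty := by
    by_contra h
    rw [Finset.not_nonempty_iff_eq_empty] at h
    apply hc
    funext i j
    by_contra h1
    have : (i, j) ∈ s := by rw [hs, Finset.mem_filter]; exact ⟨Finset.mem_univ _, h1⟩
    rw [h] at this
    exact absurd this (Finset.notMem_empty _)
  obtain ⟨x, hx, hmax⟩ := Finset.exists_max_image s
    (fun x => (x.1.1 + x.2.1) * b + (b - x.2.1)) hne
  rw [hs, Finset.mem_filter] at hx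
  refine ⟨x.1, x.2, hx.2, ?_, ?_⟩
  · intro i j hij
    by_contra h1
    have h2 := hmax (i, j) (by rw [hs, Finset.mem_filter]; exact ⟨Finset.mem_univ _, h1⟩)
    simp only at h2
    have h3 := x.2.2
    have h4 := j.2
    have h5 : (x.1.1 + x.2.1 + 1) * b ≤ (i.1 + j.1) * b := Nat.mul_le_mul_right _ hij
    rw [add_mul, one_mul] at h5
    omega
  · intro i j hij hj
    by_contra h1
    have h2 := hmax (i, j) (by rw [hs, Finset.mem_filter]; exact ⟨Finset.mem_univ _, h1⟩)
    simp only at h2
    have h3 := x.2.2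
    have h4 := j.2
    rw [← hij] at h2
    omega

lemma lif_smul (a b : ℕ) (r : ℂ) (c : Fin a → Fin b → ℂ) : lif a b (r • c) = r • lif a b c := by
  rw [lif_eq, lif_eq, Finset.smul_sum]
  apply Finset.sum_congr rfl
  intro i _
  rw [Finset.smul_sum]
  apply Finset.sum_congr rfl
  intro j _
  rw [Pi.smul_apply, Pi.smul_apply, smul_eq_mul, mul_smul]

lemma lif_add (a b : ℕ) (c c' : Fin a → Fin b → ℂ) : lif a b (c + c') = lif a b c + lif a b c' := by
  rw [lif_eq, lif_eq, lif_eq, ← Finset.sum_add_distrib]
  apply Finset.sum_congr rfl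
  intro i _
  rw [← Finset.sum_add_distrib]
  apply Finset.sum_congr rfl
  intro j _
  rw [Pi.add_apply, Pi.add_apply, add_smul]

/-- the functional as a linear map -/
noncomputable def tauL (D : PP) (G : Polynomial ℂ) : PP →ₗ[ℂ] ℂ where
  toFun := tau D G
  map_add' := tau_add
  map_smul' := tau_smul

/-- the parametrisation as a linear map -/
noncomputable def lifL (a b : ℕ) : (Fin a → Fin b → ℂ) →ₗ[ℂ] PP where
  toFun := lif a b
  map_add' := lif_add a b
  map_smul' := lif_smul a b

lemma tau_ideal (hD : D.Monic) (hG : G.Monic) {f : PP} (hf : f ∈ Ideal.span {D, C G}) :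
    tau D G f = 0 := by
  unfold tau
  split_ifs with h
  · rw [red_ideal hD hG _ _ hf]
    rfl
  · rfl

/-- nondegeneracy of the pairing -/
lemma mem_of_tau (hD : D.Monic) (hG : G.Monic) (hDW : D ∈ W (D.natDegree + 1))
    (ha : 1 ≤ D.natDegree) (hb : 1 ≤ G.natDegree) {f : PP} (hf : ∀ g, tau D G (f * g) = 0) :
    f ∈ Ideal.span {D, C G} := by
  set c := red D G D.natDegree G.natDegree f with hc
  have h1 := sub_lif_red hD hG f
  rw [← hc] at h1
  have h2 : ∀ g, tau D G (lif D.natDegree G.natDegree c * g) = 0 := by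
    intro g
    have h3 : lif D.natDegree G.natDegree c * g =
        f * g + (-1 : ℂ) • ((f - lif D.natDegree G.natDegree c) * g) := by
      rw [neg_one_smul]
      ring
    rw [h3, tau_add, hf, tau_smul, tau_ideal hD hG (Ideal.mul_mem_right _ _ h1), mul_zero, add_zero]
  have h3 : c = 0 := by
    by_contra h4
    obtain ⟨i0, j0, h5, h6, h7⟩ := exists_top _ _ c h4
    have h8 := tau_tri hD hG hDW ha hb c i0 j0 h6 h7
    rw [h2] at h8
    exact h5 h8.symm
  rw [h3] at h1
  have h4 : lif D.natDegree G.natDegree 0 = 0 := (lifL D.natDegree G.natDegree).map_zero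
  rw [h4, sub_zero] at h1
  exact h1

/-- every functional is given by the pairing -/
lemma exists_rep (hD : D.Monic) (hG : G.Monic) (hDW : D ∈ W (D.natDegree + 1))
    (ha : 1 ≤ D.natDegree) (hb : 1 ≤ G.natDegree) (l : PP →ₗ[ℂ] ℂ)
    (hl : ∀ f ∈ Ideal.span {D, C G}, l f = 0) :
    ∃ c : Fin D.natDegree → Fin G.natDegree → ℂ, ∀ f, l f =
      tau D G (lif D.natDegree G.natDegree c * f) := by
  let A := Fin D.natDegree → Fin G.natDegree → ℂ
  let Φ : A →ₗ[ℂ] Module.Dual ℂ A :=
    { toFun := fun c => (tauL D G) ∘ₗ (LinearMap.mulLeft ℂ (lif D.natDegree G.natDegree c)) ∘ₗ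
        (lifL D.natDegree G.natDegree)
      map_add' := by
        intro c c'
        apply LinearMap.ext
        intro x
        show tau D G (lif _ _ (c + c') * lif _ _ x) =
          tau D G (lif _ _ c * lif _ _ x) + tau D G (lif _ _ c' * lif _ _ x)
        rw [lif_add, add_mul, tau_add]
      map_smul' := by
        intro r c
        apply LinearMap.ext
        intro x
        show tau D G (lif _ _ (r • c) * lif _ _ x) = r * tau D G (lif _ _ c * lif _ _ x)
        rw [lif_smul, smul_mul_assoc, tau_smul] }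
  have hred : ∀ (c : A) (f : PP), tau D G (lif D.natDegree G.natDegree c * f) =
      Φ c (red D G D.natDegree G.natDegree f) := by
    intro c f
    show _ = tau D G (lif _ _ c * lif _ _ (red D G D.natDegree G.natDegree f))
    have h1 := sub_lif_red hD hG f
    have h3 : lif D.natDegree G.natDegree c * f = lif D.natDegree G.natDegree c *
        lif D.natDegree G.natDegree (red D G D.natDegree G.natDegree f) +
        (f - lif D.natDegree G.natDegree (red D G D.natDegree G.natDegree f)) *
          lif D.natDegree G.natDegree c := by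
      ring
    rw [h3, tau_add, tau_ideal hD hG (Ideal.mul_mem_right _ _ h1), add_zero]
  have hinj : Function.Injective Φ := by
    rw [← LinearMap.ker_eq_bot, LinearMap.ker_eq_bot']
    intro c hc
    by_contra h4
    obtain ⟨i0, j0, h5, h6, h7⟩ := exists_top _ _ c h4
    have h8 := tau_tri hD hG hDW ha hb c i0 j0 h6 h7
    rw [hred, hc] at h8
    exact h5 h8.symm
  have hsurj : Function.Surjective Φ := by
    rw [← LinearMap.injective_iff_surjective_of_finrank_eq_finrank]
    · exact hinj
    · exact (Subspace.dual_finrank_eq).symm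
  obtain ⟨c, hc⟩ := hsurj (l ∘ₗ lifL D.natDegree G.natDegree)
  refine ⟨c, fun f => ?_⟩
  rw [hred, hc]
  show l f = l (lif _ _ (red D G D.natDegree G.natDegree f))
  have h1 := hl _ (sub_lif_red hD hG f)
  rw [map_sub, sub_eq_zero] at h1
  exact h1

/-- Duality. -/
theorem dualP (hD : D.Monic) (hG : G.Monic) (hDW : D ∈ W (D.natDegree + 1)) {d : ℕ}
    (had : D.natDegree = d + 3) (l : PP →ₗ[ℂ] ℂ) (hl0 : l ≠ 0) (I : Ideal PP) (hDI : D ∈ I)
    (hGI : C G ∈ I) (hlI : ∀ f ∈ I, l f = 0) (hlW : ∀ f ∈ W (d + 1), l f = 0) :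
    ∃ F ∈ W (G.natDegree + 1), F ∉ Ideal.span {D, C G} ∧ ∀ f ∈ I, F * f ∈ Ideal.span {D, C G} := by
  have hle : Ideal.span {D, C G} ≤ I := by
    rw [Ideal.span_le]
    rintro x (rfl | hx)
    · exact hDI
    · rw [Set.mem_singleton_iff.mp hx]
      exact hGI
  have ha : 1 ≤ D.natDegree := by omega
  have hb : 1 ≤ G.natDegree := by
    by_contra hcon
    have h0 : G = 1 := by
      rw [← hG.natDegree_eq_zero]
      omega
    apply hl0
    ext1
    have h1 : ∀ f, l f = 0 := by
      intro f
      apply hlI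
      have : f = f * C G := by rw [h0, C_1, mul_one]
      rw [this]
      exact Ideal.mul_mem_left _ _ hGI
    exact h1 _
  obtain ⟨c, hc⟩ := exists_rep hD hG hDW ha hb l (fun f hf => hlI f (hle hf))
  refine ⟨lif _ _ c, ?_, ?_, ?_⟩
  · by_cases hc0 : c = 0
    · rw [hc0]
      have h4 : lif D.natDegree G.natDegree 0 = 0 := (lifL D.natDegree G.natDegree).map_zero
      rw [h4]
      exact zero_mem _
    obtain ⟨i0, j0, h5, h6, h7⟩ := exists_top _ _ c hc0
    have h8 := tau_tri hD hG hDW ha hb c i0 j0 h6 h7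
    have hi0 := i0.2
    have hj0 := j0.2
    have h9 : i0.1 + j0.1 ≤ G.natDegree := by
      by_contra hcon
      rw [← hc, hlW _ (mo_mem_W (by omega))] at h8
      exact h5 h8.symm
    intro i j hij
    rw [coeff_lif]
    split_ifs with h
    · exact h6 ⟨i, h.1⟩ ⟨j, h.2⟩ (by
        show i0.1 + j0.1 < i + j
        omega)
    · rfl
  · intro hcon
    apply hl0
    apply LinearMap.ext
    intro f
    rw [hc, tau_ideal hD hG (Ideal.mul_mem_right _ _ hcon)]
    rfl
  · intro f hf
    apply mem_of_tau hD hG hDW ha hb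
    intro g
    rw [mul_assoc, ← hc]
    exact hlI _ (Ideal.mul_mem_right _ _ hf)

end Pool.Agent.helper7.KV
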