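import Pool.Agent.helper7.KV.Low

/-!
# Upper bound for the local intersection number with a transversal line
-/

set_option autoImplicit false

open MvPolynomial Pool.Agent.helper5.NBS

namespace Pool.Agent.helper7.KV

/-- additivity of dimensions: `J ≤ I + (z)` and `z K ≤ I` -/
lemma finrank_le_add {I J K : Ideal R2} {z : R2} (hIJ : I ≤ J) (hJ : J ≤ I ⊔ Ideal.span {z})
    (hK : ∀ k ∈ K, z * k ∈ I) (hfinI : Module.Finite ℂ (R2 ⧸ I))
    (hfinK : Module.Finite ℂ (R2 ⧸ K)) :
    Module.finrank ℂ (R2 ⧸ I) ≤ Module.finrank ℂ (R2 ⧸ J) + Module.finrank ℂ (R2 ⧸ K) := by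
  let q : (R2 ⧸ I) →ₗ[ℂ] (R2 ⧸ J) := (Ideal.Quotient.factorₐ ℂ hIJ).toLinearMap
  have hq : Function.Surjective q := by
    intro x
    obtain ⟨F, rfl⟩ := Ideal.Quotient.mk_surjective x
    exact ⟨Ideal.Quotient.mk _ F, by simp [q]⟩
  let ψ : R2 →ₗ[ℂ] (R2 ⧸ I) := (Ideal.Quotient.mkₐ ℂ I).toLinearMap ∘ₗ LinearMap.mulLeft ℂ z
  have hle2 : K.restrictScalars ℂ ≤ LinearMap.ker ψ := by
    intro G hG
    rw [LinearMap.mem_ker]
    show Ideal.Quotient.mk _ (z * G) = 0
    rw [Ideal.Quotient.eq_zero_iff_mem]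
    exact hK G hG
  let ψ' : (R2 ⧸ K.restrictScalars ℂ) →ₗ[ℂ] (R2 ⧸ I) := Submodule.liftQ _ ψ hle2
  have hfink' : Module.Finite ℂ (R2 ⧸ K.restrictScalars ℂ) :=
    Module.Finite.equiv (Submodule.Quotient.restrictScalarsEquiv ℂ K).symm
  have hr : Module.finrank ℂ (LinearMap.range ψ') ≤ Module.finrank ℂ (R2 ⧸ K) := by
    rw [← (Submodule.Quotient.restrictScalarsEquiv ℂ K).finrank_eq]
    exact LinearMap.finrank_range_le ψ'
  have hker : LinearMap.ker q ≤ LinearMap.range ψ' := by
    intro x hx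
    obtain ⟨F, rfl⟩ := Ideal.Quotient.mk_surjective x
    rw [LinearMap.mem_ker] at hx
    have hx' : F ∈ J := by
      rw [← Ideal.Quotient.eq_zero_iff_mem]
      simpa [q] using hx
    have hx2 := hJ hx'
    rw [Submodule.mem_sup] at hx2
    obtain ⟨A, hA, B, hB, rfl⟩ := hx2
    rw [Ideal.mem_span_singleton'] at hB
    obtain ⟨G, rfl⟩ := hB
    refine ⟨Submodule.Quotient.mk G, ?_⟩
    show Ideal.Quotient.mk _ (z * G) = _
    rw [map_add, Ideal.Quotient.eq_zero_iff_mem.mpr hA, zero_add, mul_comm]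
  have h1 := LinearMap.finrank_range_add_finrank_ker q
  have h2 : Module.finrank ℂ (LinearMap.range q) = Module.finrank ℂ (R2 ⧸ J) := by
    rw [LinearMap.range_eq_top.mpr hq, finrank_top]
  have h3 := Submodule.finrank_mono hker
  omega

lemma finite_of_le {I J : Ideal R2} (h : I ≤ J) (hI : Module.Finite ℂ (R2 ⧸ I)) :
    Module.Finite ℂ (R2 ⧸ J) := by
  let q : (R2 ⧸ I) →ₗ[ℂ] (R2 ⧸ J) := (Ideal.Quotient.factorₐ ℂ h).toLinearMap
  have hq : Function.Surjective q := by
    intro x
    obtain ⟨F, rfl⟩ := Ideal.Quotient.mk_surjective x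
    exact ⟨Ideal.Quotient.mk _ F, by simp [q]⟩
  exact Module.Finite.of_surjective q hq

lemma finrank_le_of_le {I J : Ideal R2} (h : I ≤ J) (hI : Module.Finite ℂ (R2 ⧸ I)) :
    Module.finrank ℂ (R2 ⧸ J) ≤ Module.finrank ℂ (R2 ⧸ I) := by
  let q : (R2 ⧸ I) →ₗ[ℂ] (R2 ⧸ J) := (Ideal.Quotient.factorₐ ℂ h).toLinearMap
  have hq : Function.Surjective q := by
    intro x
    obtain ⟨F, rfl⟩ := Ideal.Quotient.mk_surjective x
    exact ⟨Ideal.Quotient.mk _ F, by simp [q]⟩
  exact LinearMap.finrank_le_finrank_of_surjective hq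

/-- powers of one element -/
lemma finrank_pow_le {B : Ideal R2} (hB : Module.Finite ℂ (R2 ⧸ B)) (z : R2) (T : ℕ) :
    Module.finrank ℂ (R2 ⧸ (B ⊔ Ideal.span {z ^ T})) ≤
      T * Module.finrank ℂ (R2 ⧸ (B ⊔ Ideal.span {z})) := by
  induction T with
  | zero =>
    have h1 : B ⊔ Ideal.span {z ^ 0} = ⊤ := by
      rw [pow_zero, Ideal.span_singleton_one, sup_top_eq]
    have : Subsingleton (R2 ⧸ (B ⊔ Ideal.span {z ^ 0})) := by
      rw [h1]
      exact Ideal.Quotient.subsingleton_iff.mpr rfl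
    rw [Module.finrank_zero_of_subsingleton]
    exact Nat.zero_le _
  | succ T ih =>
    have h1 := finrank_le_add (I := B ⊔ Ideal.span {z ^ (T + 1)}) (J := B ⊔ Ideal.span {z ^ T})
      (K := B ⊔ Ideal.span {z}) (z := z ^ T)
      (by
        apply sup_le_sup_left
        rw [Ideal.span_singleton_le_span_singleton]
        exact pow_dvd_pow _ (Nat.le_succ T))
      (by
        apply sup_le
        · exact le_sup_left.trans le_sup_left
        · exact le_sup_right)
      (by
        intro k hk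
        rw [Submodule.mem_sup] at hk
        obtain ⟨a, ha, b, hb, rfl⟩ := hk
        rw [mul_add]
        apply Ideal.add_mem
        · exact Ideal.mul_mem_left _ _ (Ideal.mem_sup_left ha)
        · apply Ideal.mem_sup_right
          rw [Ideal.mem_span_singleton] at hb ⊢
          rw [pow_succ]
          exact mul_dvd_mul_left _ hb)
      (finite_of_le le_sup_left hB) (finite_of_le le_sup_left hB)
    rw [add_mul, one_mul]
    omega

lemma exists_decomp {D : R2} {e : ℕ} (hD : ∀ k : Fin 2 →₀ ℕ, k 0 + k 1 < e → coeff k D = 0) :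
    ∃ A B : R2, D = C (coeff (ee e 0) D) * X 0 ^ e + X 0 ^ (e + 1) * A + X 1 * B := by
  classical
  obtain ⟨u, w, hu, hu'⟩ := exists_trunc D 1
  refine ⟨∑ n ∈ u.support.filter (fun n => n 0 ≠ e), monomial (n - Finsupp.single 0 (e + 1)) (coeff n u), w, ?_⟩
  have hcu : ∀ k : Fin 2 →₀ ℕ, k 1 = 0 → coeff k u = coeff k D := by
    intro k hk
    rw [hu, coeff_add, coeff_mul_X1 _ _ (by omega), add_zero]
  have h1 : u = C (coeff (ee e 0) D) * X 0 ^ e + X 0 ^ (e + 1) *
      ∑ n ∈ u.support.filter (fun n => n 0 ≠ e), monomial (n - Finsupp.single 0 (e + 1)) (coeff n u) := by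
    conv_lhs => rw [u.as_sum]
    rw [← Finset.sum_filter_add_sum_filter_not u.support (fun n => n 0 = e)]
    congr 1
    · have h2 : ∀ n ∈ u.support.filter (fun n => n 0 = e), n = ee e 0 := by
        intro n hn
        rw [Finset.mem_filter] at hn
        have h3 : n 1 = 0 := by
          by_contra h4
          exact (mem_support_iff.mp hn.1) (hu' n (by omega))
        rw [← ee_eq n, hn.2, h3]
      have h5 : ∑ n ∈ u.support.filter (fun n => n 0 = e), monomial n (coeff n u) =
          ∑ n ∈ u.support.filter (fun n => n = ee e 0), monomial n (coeff n u) := by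
        apply Finset.sum_congr _ (fun _ _ => rfl)
        ext n
        rw [Finset.mem_filter, Finset.mem_filter]
        constructor
        · intro h
          exact ⟨h.1, h2 n (Finset.mem_filter.mpr h)⟩
        · rintro ⟨h6, rfl⟩
          exact ⟨h6, ee_zero _ _⟩
      rw [h5, Finset.sum_filter]
      rw [Finset.sum_ite_eq' u.support (ee e 0) (fun n => monomial n (coeff n u))]
      rw [← hcu (ee e 0) (ee_one _ _)]
      have h7 : (ee e 0) = Finsupp.single (0 : Fin 2) e := by simp [ee]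
      split_ifs with h8
      · rw [h7, C_mul_X_pow_eq_monomial]
      · rw [notMem_support_iff.mp h8, C_0, zero_mul]
    · rw [Finset.mul_sum]
      apply Finset.sum_congr rfl
      intro n hn
      rw [Finset.mem_filter] at hn
      have h3 : n 1 = 0 := by
        by_contra h4
        exact (mem_support_iff.mp hn.1) (hu' n (by omega))
      have h4 : e ≤ n 0 := by
        by_contra h5
        apply mem_support_iff.mp hn.1
        rw [hcu n h3]
        exact hD n (by omega)
      have h6 : Finsupp.single 0 (e + 1) + (n - Finsupp.single 0 (e + 1)) = n := by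
        ext i
        fin_cases i
        · simp
          omega
        · simp
      rw [X_pow_eq_monomial, monomial_mul, one_mul, h6]
  rw [pow_one] at hu
  rw [mul_comm (X 1) w]
  conv_lhs => rw [hu]
  rw [← h1]

lemma X_sub_mem (p : Fin 2 → ℂ) (i : Fin 2) : (X i - C (p i) : R2) ∈ ptIdeal p :=
  Ideal.subset_span ⟨i, rfl⟩

/-- local intersection number with a transversal line -/
lemma local_line {p : Fin 2 → ℂ} {D : R2} {e : ℕ} (hD : D ∈ ptIdeal p ^ e)
    (hD1 : coeff (ee e 0) (trans p D) ≠ 0) (N : ℕ) :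
    Module.finrank ℂ (R2 ⧸ ((Ideal.span {D} ⊔ ptIdeal p ^ N) ⊔ Ideal.span {X 1 - C (p 1)})) ≤ e := by
  set B := Ideal.span {D} ⊔ ptIdeal p ^ N with hB
  set J : Ideal R2 := B ⊔ Ideal.span {X 1 - C (p 1)} with hJ
  rw [mem_ptIdeal_pow] at hD
  obtain ⟨A', B', hdec⟩ := exists_decomp (D := trans p D) (e := e)
    (fun k hk => hD k (by rw [degree_eq]; exact hk))
  set c := coeff (ee e 0) (trans p D) with hc
  have hdec2 : D = C c * (X 0 - C (p 0)) ^ e + (X 0 - C (p 0)) ^ (e + 1) * (trans p).symm A' +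
      (X 1 - C (p 1)) * (trans p).symm B' := by
    have h1 := congrArg (trans p).symm hdec
    rw [AlgEquiv.symm_apply_apply] at h1
    rw [h1]
    simp only [map_add, map_mul, map_pow, trans_symm_X]
    congr 3
    exact (trans p).symm.commutes c
  set ξ : R2 := X 0 - C (p 0) with hξ
  set η : R2 := X 1 - C (p 1) with hη
  set A := (trans p).symm A'
  set B2 := (trans p).symm B'
  have hξJ : ξ ^ e ∈ J := by
    set w : R2 := - (C c⁻¹ * ξ * A) with hw
    have h1 : C c * ξ ^ e * (1 - w) = D - η * B2 := by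
      rw [hdec2, hw]
      have h2 : (C c * C c⁻¹ : R2) = 1 := by
        rw [← C_mul, mul_inv_cancel₀ hD1, C_1]
      linear_combination (ξ ^ e * ξ * A) * h2
    have h2 : (1 - w) * ∑ i ∈ Finset.range N, w ^ i = 1 - w ^ N := by
      rw [mul_neg_geom_sum]
    have h3 : ξ ^ e = C c⁻¹ * (D - η * B2) * (∑ i ∈ Finset.range N, w ^ i) + ξ ^ e * w ^ N := by
      rw [← h1]
      have h4 : (C c * C c⁻¹ : R2) = 1 := by
        rw [← C_mul, mul_inv_cancel₀ hD1, C_1]
      linear_combination (-(C c * C c⁻¹) * ξ ^ e) * h2 - (ξ ^ e * (1 - w ^ N)) * h4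
    rw [h3]
    apply Ideal.add_mem
    · apply Ideal.mul_mem_right
      apply Ideal.mul_mem_left
      apply Ideal.sub_mem
      · apply Ideal.mem_sup_left
        apply Ideal.mem_sup_left
        exact Ideal.mem_span_singleton_self D
      · apply Ideal.mem_sup_right
        exact Ideal.mul_mem_right _ _ (Ideal.mem_span_singleton_self η)
    · apply Ideal.mul_mem_left
      apply Ideal.mem_sup_left
      apply Ideal.mem_sup_right
      apply Ideal.pow_mem_pow
      rw [hw]
      apply (Ideal.neg_mem_iff _).mpr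
      apply Ideal.mul_mem_right
      exact Ideal.mul_mem_left _ _ (X_sub_mem p 0)
  -- the ideal `(ξ ^ e, η)`
  have hfinN := finite_quot p N
  have hfinB : Module.Finite ℂ (R2 ⧸ B) := finite_of_le le_sup_right hfinN
  have hfinJ : Module.Finite ℂ (R2 ⧸ J) := finite_of_le le_sup_left hfinB
  have h5 := finrank_pow_le hfinJ ξ e
  have h6 : J ⊔ Ideal.span {ξ ^ e} = J := by
    rw [sup_eq_left, Ideal.span_singleton_le_iff_mem]
    exact hξJ
  rw [h6] at h5
  refine h5.trans ?_
  have h7 : Module.finrank ℂ (R2 ⧸ (J ⊔ Ideal.span {ξ})) ≤ 1 := by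
    have h8 : ptIdeal p ≤ J ⊔ Ideal.span {ξ} := by
      rw [ptIdeal, Ideal.span_le]
      rintro _ ⟨i, rfl⟩
      fin_cases i
      · exact Ideal.mem_sup_right (Ideal.mem_span_singleton_self ξ)
      · exact Ideal.mem_sup_left (Ideal.mem_sup_right (Ideal.mem_span_singleton_self η))
    have h9 := finite_quot p 1
    have h10 := finrank_quot p 1
    rw [pow_one] at h9 h10
    have h11 := finrank_le_of_le h8 h9
    push_cast at h10
    omega
  calc e * Module.finrank ℂ (R2 ⧸ (J ⊔ Ideal.span {ξ})) ≤ e * 1 := Nat.mul_le_mul_left _ h7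
    _ = e := mul_one e

/-- local intersection number with a multiple transversal line -/
lemma local_upper {p : Fin 2 → ℂ} {D : R2} {e : ℕ} (hD : D ∈ ptIdeal p ^ e)
    (hD1 : coeff (ee e 0) (trans p D) ≠ 0) (T N : ℕ) :
    Module.finrank ℂ (R2 ⧸ ((Ideal.span {D} ⊔ ptIdeal p ^ N) ⊔ Ideal.span {(X 1 - C (p 1)) ^ T})) ≤
      T * e := by
  have hfinN := finite_quot p N
  have hfinB : Module.Finite ℂ (R2 ⧸ (Ideal.span {D} ⊔ ptIdeal p ^ N)) :=
    finite_of_le le_sup_right hfinN
  refine (finrank_pow_le hfinB (X 1 - C (p 1)) T).trans ?_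
  exact Nat.mul_le_mul_left _ (local_line hD hD1 N)

end Pool.Agent.helper7.KV
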