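import Pool.Agent.helper7.KV.DualR

/-!
# A local monomial order and the local lemma
-/

set_option autoImplicit false

open MvPolynomial Pool.Agent.helper5.NBS

namespace Pool.Agent.helper7.KV

/-- the local order: degree first, then the exponent of the second variable -/
def klt (n m : Fin 2 →₀ ℕ) : Prop :=
  n 0 + n 1 < m 0 + m 1 ∨ (n 0 + n 1 = m 0 + m 1 ∧ n 1 < m 1)

lemma exists_low {f : R2} (hf : f ≠ 0) : ∃ n, coeff n f ≠ 0 ∧ ∀ k, klt k n → coeff k f = 0 := by
  have hne : f.support.Nonempty := support_nonempty.mpr hf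
  obtain ⟨n, hn, hmin⟩ := Finset.exists_min_image f.support
    (fun n => toLex (n 0 + n 1, n 1)) hne
  refine ⟨n, mem_support_iff.mp hn, fun k hk => ?_⟩
  by_contra h
  have h1 := hmin k (mem_support_iff.mpr h)
  rw [Prod.Lex.toLex_le_toLex] at h1
  simp only at h1
  unfold klt at hk
  omega

lemma low_mul {f g : R2} {n m : Fin 2 →₀ ℕ} (hf : ∀ k, klt k n → coeff k f = 0)
    (hg : ∀ k, klt k m → coeff k g = 0) :
    (∀ k, klt k (n + m) → coeff k (f * g) = 0) ∧
      coeff (n + m) (f * g) = coeff n f * coeff m g := by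
  classical
  constructor
  · intro k hk
    rw [coeff_mul]
    apply Finset.sum_eq_zero
    rintro ⟨a, b⟩ hab
    have hab : a + b = k := Finset.HasAntidiagonal.mem_antidiagonal.mp hab
    show coeff a f * coeff b g = 0
    by_cases h1 : klt a n
    · rw [hf a h1, zero_mul]
    · by_cases h2 : klt b m
      · rw [hg b h2, mul_zero]
      · exfalso
        unfold klt at hk h1 h2
        rw [← hab] at hk
        simp only [Finsupp.add_apply] at hk
        omega
  · rw [coeff_mul, Finset.sum_eq_single (n, m)]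
    · rintro ⟨a, b⟩ hab hne
      have hab : a + b = n + m := Finset.HasAntidiagonal.mem_antidiagonal.mp hab
      show coeff a f * coeff b g = 0
      by_cases h1 : klt a n
      · rw [hf a h1, zero_mul]
      · by_cases h2 : klt b m
        · rw [hg b h2, mul_zero]
        · exfalso
          apply hne
          have e0 := congrArg (fun z : Fin 2 →₀ ℕ => z 0) hab
          have e1 := congrArg (fun z : Fin 2 →₀ ℕ => z 1) hab
          simp only [Finsupp.add_apply] at e0 e1
          unfold klt at h1 h2
          have h3 : a = n := by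
            ext i
            fin_cases i
            · show a 0 = n 0
              omega
            · show a 1 = n 1
              omega
          have h4 : b = m := by
            ext i
            fin_cases i
            · show b 0 = m 0
              omega
            · show b 1 = m 1
              omega
          rw [h3, h4]
    · intro h
      exfalso
      apply h
      rw [Finset.HasAntidiagonal.mem_antidiagonal]

/-- reduction modulo a power of the second variable -/
lemma exists_trunc (u : R2) (T : ℕ) : ∃ u' w : R2, u = u' + w * X 1 ^ T ∧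
    ∀ k : Fin 2 →₀ ℕ, T ≤ k 1 → coeff k u' = 0 := by
  classical
  refine ⟨∑ n ∈ u.support.filter (fun n => n 1 < T), monomial n (coeff n u),
    ∑ n ∈ u.support.filter (fun n => ¬ n 1 < T), monomial (n - Finsupp.single 1 T) (coeff n u), ?_, ?_⟩
  · conv_lhs => rw [u.as_sum]
    rw [← Finset.sum_filter_add_sum_filter_not u.support (fun n => n 1 < T)]
    congr 1
    rw [Finset.sum_mul]
    apply Finset.sum_congr rfl
    intro n hn
    rw [Finset.mem_filter] at hn
    have h1 : n - Finsupp.single 1 T + Finsupp.single 1 T = n := by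
      ext i
      fin_cases i
      · simp
      · simp
        omega
    rw [X_pow_eq_monomial, monomial_mul, mul_one, h1]
  · intro k hk
    rw [coeff_sum]
    apply Finset.sum_eq_zero
    intro n hn
    rw [Finset.mem_filter] at hn
    rw [coeff_monomial, if_neg]
    intro h
    rw [h] at hn
    omega

lemma coeff_mul_X1 (v : R2) (T : ℕ) {k : Fin 2 →₀ ℕ} (hk : k 1 < T) : coeff k (v * X 1 ^ T) = 0 := by
  classical
  rw [X_pow_eq_monomial, coeff_mul_monomial', if_neg]
  intro h
  have := h 1
  simp at this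
  omega

/-- The local lemma at the origin. -/
lemma local0 {F D : R2} {T e : ℕ} (hD : ∀ k : Fin 2 →₀ ℕ, k 0 + k 1 < e → coeff k D = 0)
    (hD1 : coeff (ee e 0) D ≠ 0)
    (hF : ∀ g : R2, (∀ k : Fin 2 →₀ ℕ, k 0 + k 1 < T → coeff k g = 0) →
      F * g ∈ Ideal.span {D, X 1 ^ T}) :
    ∀ k : Fin 2 →₀ ℕ, k 0 + k 1 < min T (e - 1) → coeff k F = 0 := by
  classical
  intro k0 hk0
  by_contra hcon
  have hF0 : F ≠ 0 := by
    rintro rfl
    exact hcon (coeff_zero _)
  obtain ⟨n, hn, hnl⟩ := exists_low hF0
  have hnk : n 0 + n 1 ≤ k0 0 + k0 1 := by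
    by_contra h
    exact hcon (hnl k0 (Or.inl (by omega)))
  have hr : n 0 + n 1 < T ∧ n 0 + n 1 < e - 1 := by
    rw [lt_min_iff] at hk0
    omega
  set m : Fin 2 →₀ ℕ := ee (e - 1 - n 0) (T - 1 - n 1) with hm
  have hm0 : m 0 = e - 1 - n 0 := ee_zero _ _
  have hm1 : m 1 = T - 1 - n 1 := ee_one _ _
  set g : R2 := monomial m 1 with hg
  have hgl : ∀ k, klt k m → coeff k g = 0 := by
    intro k hk
    rw [hg, coeff_monomial, if_neg]
    rintro rfl
    unfold klt at hk
    omega
  have hgT : ∀ k : Fin 2 →₀ ℕ, k 0 + k 1 < T → coeff k g = 0 := by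
    intro k hk
    rw [hg, coeff_monomial, if_neg]
    rintro rfl
    omega
  obtain ⟨q1, q2⟩ := low_mul hnl hgl
  have hgm : coeff m g = 1 := by rw [hg, coeff_monomial, if_pos rfl]
  rw [hgm, mul_one] at q2
  have hν0 : (n + m) 0 = e - 1 := by
    rw [Finsupp.add_apply, hm0]
    omega
  have hν1 : (n + m) 1 = T - 1 := by
    rw [Finsupp.add_apply, hm1]
    omega
  have hmem := hF g hgT
  rw [Ideal.mem_span_pair] at hmem
  obtain ⟨u, v, huv⟩ := hmem
  obtain ⟨u', w, hu, hu'⟩ := exists_trunc u T
  have key : ∀ k : Fin 2 →₀ ℕ, k 1 < T → coeff k (F * g) = coeff k (u' * D) := by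
    intro k hk
    have e1 : F * g = u' * D + (w * D + v) * X 1 ^ T := by
      rw [← huv, hu]
      ring
    rw [e1, coeff_add, coeff_mul_X1 _ _ hk, add_zero]
  have hu0 : u' ≠ 0 := by
    intro h0
    have := key (n + m) (by omega)
    rw [h0, zero_mul, coeff_zero, q2] at this
    exact hn this
  obtain ⟨μ, hμ, hμl⟩ := exists_low hu0
  have hμT : μ 1 < T := by
    by_contra h
    exact hμ (hu' μ (by omega))
  have hDl : ∀ k, klt k (ee e 0) → coeff k D = 0 := by
    intro k hk
    unfold klt at hk
    rw [ee_zero, ee_one] at hk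
    apply hD
    omega
  obtain ⟨r1, r2⟩ := low_mul hμl hDl
  have e0 : (μ + ee e 0) 0 = μ 0 + e := by rw [Finsupp.add_apply, ee_zero]
  have e1 : (μ + ee e 0) 1 = μ 1 := by rw [Finsupp.add_apply, ee_one, add_zero]
  by_cases h1 : klt (n + m) (μ + ee e 0)
  · have := key (n + m) (by omega)
    rw [r1 _ h1, q2] at this
    exact hn this
  · have h2 : klt (μ + ee e 0) (n + m) := by
      unfold klt at h1 ⊢
      omega
    have := key (μ + ee e 0) (by omega)
    rw [q1 _ h2, r2] at this
    exact mul_ne_zero hμ hD1 this.symm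

/-- The local lemma at a point. -/
lemma local_p {p : Fin 2 → ℂ} {F D : R2} {T e : ℕ} (hD : D ∈ ptIdeal p ^ e)
    (hD1 : coeff (ee e 0) (trans p D) ≠ 0)
    (hF : ∀ g ∈ ptIdeal p ^ T, F * g ∈ Ideal.span {D, (X 1 - C (p 1)) ^ T}) :
    F ∈ ptIdeal p ^ (min T (e - 1)) := by
  rw [mem_ptIdeal_pow] at hD ⊢
  have h1 := local0 (F := trans p F) (D := trans p D) (T := T) (e := e)
    (fun k hk => hD k (by rw [degree_eq]; exact hk)) hD1 ?_
  · intro k hk
    exact h1 k (by rw [← degree_eq]; exact hk)
  · intro g hg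
    have h2 : (trans p).symm g ∈ ptIdeal p ^ T := by
      rw [mem_ptIdeal_pow]
      intro k hk
      rw [AlgEquiv.apply_symm_apply]
      exact hg k (by rw [← degree_eq]; exact hk)
    have h3 := hF _ h2
    rw [Ideal.mem_span_pair] at h3 ⊢
    obtain ⟨u, v, huv⟩ := h3
    refine ⟨trans p u, trans p v, ?_⟩
    have h4 := congrArg (trans p) huv
    rw [map_add, map_mul, map_mul, map_mul, AlgEquiv.apply_symm_apply, map_pow, map_sub, trans_X,
      trans_C, add_sub_cancel_right] at h4
    exact h4

end Pool.Agent.helper7.KV
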